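import Pool.Agent.H87.Bior

namespace Pool.Agent.Results.MP_68f07c_an.Neg

open Pool.Agent.H87.Bior

theorem result (K : Type) [RCLike K] :
    ∃ (E : Type) (_ : NormedAddCommGroup E) (_ : NormedSpace K E) (_ : CompleteSpace E)
      (x : ℕ → E) (f : ℕ → StrongDual K E),
      (∀ i j, f i (x j) = if i = j then 1 else 0) ∧
      (∀ n, ‖x n‖ = 1) ∧ (∀ n, ‖f n‖ ≤ 2) ∧
      IsBasic K x ∧ IsBasic K f ∧
      IsClosed {v : E | ∃ p ∈ cspan K x, ∃ q ∈ preAnn K (cspan K f : Set (StrongDual K E)),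
        v = p + q} ∧
      ¬ Equivalent K f (restr K x f) := by
  refine ⟨E K, inferInstance, inferInstance, inferInstance, xs K, fs K, biorth K, norm_xs K,
    norm_fs K, basic_xs K, basic_fs K, ?_, not_equiv K⟩
  rw [preAnn_eq]
  have : {v : E K | ∃ p ∈ cspan K (xs K), ∃ q ∈ ({0} : Set (E K)), v = p + q}
      = (cspan K (xs K) : Set (E K)) := by
    ext v; simp
  rw [this]
  exact Submodule.isClosed_topologicalClosure _

end Pool.Agent.Results.MP_68f07c_an.Neg
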